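import Pool.Agent.Helper79.CU.TensOde
import Pool.Agent.Helper79.GC.Defs3
import Pool.Agent.Helper79.DD.Sym

/-!
# UI, leaf U6: the system of the symmetric words (helper34 for helper79)
-/

open Polynomial

namespace Pool.Agent.Helper79.UI

open Pool.Agent.Helper79.GC Pool.Agent.Helper79.DD Pool.Agent.Helper79.CU

/-- The letters are analytic. -/
theorem ltr_an {ι : Type} [Fintype ι] [DecidableEq ι] {U : Set ℂ} {P : ℂ → Matrix ι ι ℂ}
    (hP : ∀ i k, AnalyticOnNhd ℂ (fun t => P t i k) U) (q : Option (ι × ι)) :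
    AnalyticOnNhd ℂ (fun t => ltr (P t) q) U := by
  rcases q with _ | p
  · exact analyticOnNhd_const
  · exact hP p.1 p.2

/-- The system of the letters. -/
theorem ltr_ode {ι : Type} [Fintype ι] [DecidableEq ι] {T : ℚ[X]} {A : Matrix ι ι ℚ[X]} {U : Set ℂ}
    {P : ℂ → Matrix ι ι ℂ}
    (hode : ∀ t ∈ U, ∀ i k, aeval t T * deriv (fun t => P t i k) t =
      ∑ j, aeval t (A i j) * P t j k) {t : ℂ} (ht : t ∈ U) (q : Option (ι × ι)) :
    aeval t T * deriv (fun t => ltr (P t) q) t =
      ∑ l, aeval t (lett A q l) * ltr (P t) l := by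
  rcases q with _ | ⟨i, k⟩
  · have h1 : (fun t => ltr (P t) none) = fun _ : ℂ => (1 : ℂ) := rfl
    rw [h1, deriv_const, mul_zero]
    symm
    refine Finset.sum_eq_zero fun l _ => ?_
    have h2 : lett A none l = 0 := rfl
    rw [h2, map_zero, zero_mul]
  · have h1 : (fun t => ltr (P t) (some (i, k))) = fun t => P t i k := rfl
    rw [h1, hode t ht i k, Fintype.sum_option, Fintype.sum_prod_type]
    have h2 : lett A (some (i, k)) none = 0 := rfl
    rw [h2, map_zero, zero_mul, zero_add]
    refine Finset.sum_congr rfl fun j _ => ?_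
    have h3 : ∀ l, lett A (some (i, k)) (some (j, l)) = if k = l then A i j else 0 := fun _ => rfl
    rw [Finset.sum_eq_single k, h3, if_pos rfl]
    · rfl
    · intro l _ hl
      rw [h3, if_neg (Ne.symm hl), map_zero, zero_mul]
    · intro h
      exact absurd (Finset.mem_univ _) h

/-- U6: the system of the symmetric words. -/
theorem sym_ode {ι : Type} [Fintype ι] [DecidableEq ι] {T : ℚ[X]} {A : Matrix ι ι ℚ[X]} {U : Set ℂ}
    (hU : IsOpen U) {P : ℂ → Matrix ι ι ℂ} (hP : ∀ i k, AnalyticOnNhd ℂ (fun t => P t i k) U)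
    (hode : ∀ t ∈ U, ∀ i k, aeval t T * deriv (fun t => P t i k) t =
      ∑ j, aeval t (A i j) * P t j k) (r : ℕ) :
    (∀ s : Wt (Option (ι × ι)) r,
      AnalyticOnNhd ℂ (fun t => ∏ j, ltr (P t) (rep s j)) U) ∧
    ∀ t ∈ U, ∀ s : Wt (Option (ι × ι)) r,
      aeval t T * deriv (fun t => ∏ j, ltr (P t) (rep s j)) t =
        ∑ s', aeval t (qM cls rep (tens r (lett A)) s s') * ∏ j, ltr (P t) (rep s' j) := by
  refine ⟨fun s => ?_, fun t ht s => ?_⟩
  · exact Finset.analyticOnNhd_fun_prod _ fun j _ => ltr_an hP _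
  · -- the system of all words
    have hw : ∀ I : Fin r → Option (ι × ι),
        aeval t T * deriv (fun t => ∏ j, ltr (P t) (I j)) t =
          ∑ K, aeval t (tens r (lett A) I K) * ∏ j, ltr (P t) (K j) := by
      intro I
      have h1 := (tens_ode (V := fun t => (fun a (_ : Unit) => ltr (P t) a)) (t := t)
        (T := aeval t T) (A := (lett A).map (((aeval t : ℚ[X] →ₐ[ℚ] ℂ) : ℚ[X] →+* ℂ)))
        (fun i _ => (ltr_an hP i t ht).differentiableAt)
        (fun i _ => by
          simp only [Matrix.map_apply]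
          exact ltr_ode hode ht i) r I (fun _ => ())).2
      rw [← tens_map] at h1
      exact h1
    -- the words of a class have the same value
    have hz : ∀ I : Fin r → Option (ι × ι),
        ∏ j, ltr (P t) (I j) = ∏ j, ltr (P t) (rep (cls I) j) := by
      intro I
      obtain ⟨τ, hτ⟩ := exists_perm (cls_rep (cls I)).symm
      rw [hτ]
      exact (Equiv.prod_comp τ (fun j => ltr (P t) (I j))).symm
    rw [hw (rep s)]
    have e1 : ∀ s' : Wt (Option (ι × ι)) r,
        aeval t (qM cls rep (tens r (lett A)) s s') * ∏ j, ltr (P t) (rep s' j) =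
        ∑ J, if cls J = s' then
          aeval t (tens r (lett A) (rep s) J) * ∏ j, ltr (P t) (rep s' j) else 0 := by
      intro s'
      unfold qM
      rw [map_sum, Finset.sum_mul]
      refine Finset.sum_congr rfl fun J _ => ?_
      split_ifs
      · rfl
      · rw [map_zero, zero_mul]
    rw [Finset.sum_congr rfl fun s' _ => e1 s', Finset.sum_comm]
    refine Finset.sum_congr rfl fun J _ => ?_
    rw [Finset.sum_ite_eq Finset.univ (cls J), if_pos (Finset.mem_univ _), ← hz J]

end Pool.Agent.Helper79.UI
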